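import Mathlib
import Pool.Agent.U52.PD.LogC

set_option autoImplicit false

/-!
# The distribution of the distance to the next displaced prime

Replace every prime `p` by `p + ξ_p` with independent random integers `ξ_p` that are uniformly distributed on
`1, …, p / (log p)^B`, let `Q` be the set of the numbers `p + ξ_p` and `g(n)` the distance from `n` to the next
element of `Q`. We show, without any hypothesis, that almost surely for every `l > 0` the set of the `n` with
`g(n) > l log n` has the natural density `exp (-l)`. So for the displaced primes the normalised distance to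
the next element has a distribution function, and it is the continuous function `1 - exp (-l)`.

Proof. By the prime number theorem with error term in intervals of length `t / (log t)^B` the probability that
`(t, t + l log t]` contains no displaced prime tends to `exp (-l)`. These events are negatively correlated for
disjoint windows, so the variance of their number up to `X` is `O(X log X)`; Chebyshev's inequality, the
Borel-Cantelli lemma along `X = k ^ 3` and monotonicity give the density.
-/

open MeasureTheory ProbabilityTheory Filter Topology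

namespace Pool.Agent.Results.MP_3499c5_nt.DisplacedPrimesDistribution

/-- The set of the numbers `p + ξ_p`, `p` prime. -/
def Displaced {Ω : Type*} (ξ : ℕ → Ω → ℕ) (ω : Ω) : Set ℕ := {q | ∃ p : ℕ, p.Prime ∧ p + ξ p ω = q}

/-- The distance from `n` to the next element of `Q`. -/
noncomputable def g (Q : Set ℕ) (n : ℕ) : ℕ := sInf {q | q ∈ Q ∧ n < q} - n

open Classical in
/-- The number of the positive integers `n ≤ X` with `g(n) > l log n`. -/
noncomputable def F (Q : Set ℕ) (l : ℝ) (X : ℕ) : ℕ :=
  ((Finset.Icc 1 X).filter (fun n : ℕ => l * Real.log n < (g Q n : ℝ))).card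

/-- Independent displacements; the displacement of the prime `p` is uniformly distributed on `1, …, D p`. -/
structure Uniform {Ω : Type*} [MeasurableSpace Ω] (μ : Measure Ω) (ξ : ℕ → Ω → ℕ) (D : ℕ → ℕ) : Prop where
  meas : ∀ p, Measurable (ξ p)
  indep : iIndepFun ξ μ
  law : ∀ p : ℕ, p.Prime → ∀ j : ℕ, μ.real (ξ p ⁻¹' {j}) =
    if 1 ≤ j ∧ j ≤ D p then 1 / (D p : ℝ) else 0

theorem result (B : ℕ) (hB : 1 ≤ B) {Ω : Type*} [MeasurableSpace Ω] (μ : Measure Ω)
    [IsProbabilityMeasure μ] (ξ : ℕ → Ω → ℕ)
    (h : Uniform μ ξ (fun p => ⌊(p : ℝ) / (Real.log p) ^ B⌋₊ + 1)) :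
    ∀ᵐ ω ∂μ, ∀ l : ℝ, 0 < l →
      Tendsto (fun X : ℕ => (F (Displaced ξ ω) l X : ℝ) / X) atTop (𝓝 (Real.exp (-l))) :=
  Pool.Agent.U52.PD.dist_all B hB h.meas h.indep h.law

end Pool.Agent.Results.MP_3499c5_nt.DisplacedPrimesDistribution
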